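import Pool.Agent.Lib.MP_a55e6f_al.Interfaces

/-!
# MP_a55e6f_al (S02584): module LA2
-/

set_option autoImplicit false

open MvPolynomial

attribute [local instance 100] LieRing.ofAssociativeRing

namespace Pool.Agent.A55.H75

section NN
variable {k M : Type} [Field k]

theorem coeff_iota (b : MonoidAlgebra k M) (m : M →₀ ℕ) :
    (iota b).coeff m ≠ 0 → ∃ w, m = Finsupp.single w 1 ∧ b.coeff w ≠ 0 := by
  classical
  intro h
  simp only [iota, LinearMap.coe_mk, AddHom.coe_mk, Finsupp.sum, coeff_sum, coeff_smul,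
    smul_eq_mul] at h
  obtain ⟨w, hw, hne⟩ := Finset.exists_ne_zero_of_sum_ne_zero h
  refine ⟨w, ?_, Finsupp.mem_support_iff.1 hw⟩
  by_contra hm
  apply hne
  rw [coeff_X, if_neg (fun h => hm h.symm), mul_zero]

theorem pderiv_iota (b : MonoidAlgebra k M) (w : M) : pderiv w (iota b) = C (b.coeff w) := by
  classical
  simp only [iota, LinearMap.coe_mk, AddHom.coe_mk, Finsupp.sum, map_sum, Derivation.map_smul]
  by_cases hw : w ∈ b.coeff.support
  · rw [Finset.sum_eq_single w]
    · rw [pderiv_X_self, smul_eq_C_mul, mul_one]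
    · intro v _ hv
      rw [pderiv_X_of_ne hv, smul_zero]
    · intro h; exact absurd hw h
  · rw [Finset.sum_eq_zero]
    · rw [Finsupp.notMem_support_iff.1 hw, map_zero]
    · intro v hv
      rw [pderiv_X_of_ne, smul_zero]
      rintro rfl
      exact hw hv

/-- The element `∑_w Φ_w (∂_w f) w` of the monoid algebra. -/
noncomputable def NN (Φ : M → MvPolynomial M k →ₗ[k] k) :
    MvPolynomial M k →ₗ[k] MonoidAlgebra k M where
  toFun f := .ofCoeff (Finsupp.onFinset f.vars (fun w => Φ w (pderiv w f)) (by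
    intro w hw
    by_contra h
    exact hw (by rw [pderiv_eq_zero_of_notMem_vars h, map_zero])))
  map_add' f g := by
    ext w; simp
  map_smul' r f := by
    ext w; simp

theorem coeff_NN (Φ : M → MvPolynomial M k →ₗ[k] k) (f : MvPolynomial M k) (w : M) :
    (NN Φ f).coeff w = Φ w (pderiv w f) := by
  simp [NN]

/-- `N_φ`. -/
noncomputable abbrev Nf (φ : MvPolynomial M k →ₗ[k] k) : MvPolynomial M k →ₗ[k] MonoidAlgebra k M :=
  NN (fun _ => φ)

theorem Nf_mem [Monoid M] (G : LieSubalgebra k (MonoidAlgebra k M)) {f : MvPolynomial M k}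
    (hf : f ∈ Algebra.adjoin k (iota '' (G : Set (MonoidAlgebra k M)))) :
    ∀ φ : MvPolynomial M k →ₗ[k] k, Nf φ f ∈ G := by
  induction hf using Algebra.adjoin_induction with
  | mem x hx =>
    intro φ
    obtain ⟨g, hg, rfl⟩ := hx
    have : Nf φ (iota g) = φ 1 • g := by
      ext w
      rw [coeff_NN, pderiv_iota, MonoidAlgebra.coeff_smul, Finsupp.smul_apply, smul_eq_mul,
        ← mul_one (C (g.coeff w)), ← smul_eq_C_mul, map_smul, smul_eq_mul, mul_comm]
    rw [this]
    exact G.smul_mem _ hg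
  | algebraMap r =>
    intro φ
    have : Nf φ (algebraMap k (MvPolynomial M k) r) = 0 := by
      ext w
      rw [coeff_NN, MvPolynomial.algebraMap_eq, pderiv_C, map_zero]; simp
    rw [this]
    exact G.zero_mem
  | add x y _ _ hx hy =>
    intro φ
    rw [map_add]
    exact G.add_mem (hx φ) (hy φ)
  | mul x y _ _ hx hy =>
    intro φ
    have : Nf φ (x * y) = Nf (φ.comp (LinearMap.mulRight k y)) x
        + Nf (φ.comp (LinearMap.mulLeft k x)) y := by
      ext w
      rw [MonoidAlgebra.coeff_add, Finsupp.add_apply, coeff_NN, coeff_NN, coeff_NN, pderiv_mul,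
        map_add]
      rfl
    rw [this]
    exact G.add_mem (hx _) (hy _)

end NN

section Pi
variable {k M : Type} [Field k] [Monoid M]

theorem Pi_add_left (f f' g : MvPolynomial M k) : Pi (f + f') g = Pi f g + Pi f' g := by
  unfold Pi
  rw [← Derivation.add_apply]
  congr 1
  apply MvPolynomial.derivation_ext
  intro i
  simp [mkDerivation_X]

theorem Pi_smul_left (r : k) (f g : MvPolynomial M k) : Pi (r • f) g = r • Pi f g := by
  unfold Pi
  rw [← Derivation.smul_apply]
  congr 1
  apply MvPolynomial.derivation_ext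
  intro i
  simp [mkDerivation_X]

/-- `Pi` as a bilinear map. -/
noncomputable def PiL : MvPolynomial M k →ₗ[k] MvPolynomial M k →ₗ[k] MvPolynomial M k where
  toFun f := (mkDerivation k
    (fun w' => mkDerivation k (fun w => (X (w * w') : MvPolynomial M k)) f)).toLinearMap
  map_add' f f' := by ext1 m; apply LinearMap.ext; intro r; exact Pi_add_left f f' _
  map_smul' r f := by ext1 m; apply LinearMap.ext; intro r'; exact Pi_smul_left r f _

theorem PiL_apply (f g : MvPolynomial M k) : PiL f g = Pi f g := rfl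

theorem Pi_monomial (m m' : M →₀ ℕ) (a b : k) :
    Pi (monomial m a) (monomial m' b) = ∑ w' ∈ m'.support, ∑ w ∈ m.support,
      monomial ((m' - Finsupp.single w' 1) + ((m - Finsupp.single w 1)
        + Finsupp.single (w * w') 1)) ((b * m' w') * (a * m w)) := by
  unfold Pi
  rw [mkDerivation_monomial, Finsupp.sum, Finset.smul_sum]
  refine Finset.sum_congr rfl fun w' _ => ?_
  rw [mkDerivation_monomial, Finsupp.sum, Finset.smul_sum, Finset.smul_sum, Finset.smul_sum]
  refine Finset.sum_congr rfl fun w _ => ?_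
  rw [smul_eq_mul, smul_eq_mul, X, monomial_mul, smul_monomial, monomial_mul, smul_monomial]
  congr 1
  simp only [smul_eq_mul]
  ring

end Pi

section Q
variable {k M : Type} [Field k] (z y : M → ℕ) (K : ℕ) (θ : ℚ) (ζ : M → k)

/-- Weight of a monomial. -/
def ws (z : M → ℕ) (m : M →₀ ℕ) : ℕ := m.sum fun w i => i * z w

theorem ws_add (z : M → ℕ) (m m' : M →₀ ℕ) : ws z (m + m') = ws z m + ws z m' := by
  classical
  unfold ws
  exact Finsupp.sum_add_index' (by simp) (by intro w i j; ring)

theorem ws_single (z : M → ℕ) (w : M) : ws z (Finsupp.single w 1) = z w := by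
  simp [ws]

theorem sub_single_add {m : M →₀ ℕ} {w : M} (hw : w ∈ m.support) :
    m - Finsupp.single w 1 + Finsupp.single w 1 = m := by
  classical
  ext u
  by_cases h : w = u
  · subst h
    have := Finsupp.mem_support_iff.1 hw
    simp only [Finsupp.coe_add, Finsupp.coe_tsub, Pi.add_apply, Pi.sub_apply,
      Finsupp.single_eq_same]
    omega
  · simp [h]

theorem ws_sub {m : M →₀ ℕ} {w : M} (hw : w ∈ m.support) :
    ws z m = ws z (m - Finsupp.single w 1) + z w := by
  conv_lhs => rw [← sub_single_add hw, ws_add, ws_single]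

theorem le_ws {m : M →₀ ℕ} {w : M} (hw : w ∈ m.support) : z w ≤ ws z m := by
  rw [ws_sub z hw]; omega

/-- `τ(w)`. -/
def tau (w : M) : ℚ := K * z w + y w

/-- `Λ(m)`. -/
def Lam (m : M →₀ ℕ) : ℚ := θ * ws z m + ws y m

theorem Lam_add (m m' : M →₀ ℕ) : Lam z y θ (m + m') = Lam z y θ m + Lam z y θ m' := by
  unfold Lam; rw [ws_add, ws_add]; push_cast; ring

open scoped Classical in
/-- the functional `φ_e`. -/
noncomputable def phi (e : ℕ) : MvPolynomial M k →ₗ[k] k :=
  (basisMonomials M k).constr k fun m =>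
    if (K : ℚ) * e = θ * (ws z m + e) + ws y m then m.prod (fun w n => ζ w ^ n) else 0

open scoped Classical in
theorem phi_monomial (e : ℕ) (m : M →₀ ℕ) (a : k) :
    phi z y K θ ζ e (monomial m a) =
      if (K : ℚ) * e = θ * (ws z m + e) + ws y m then a * m.prod (fun w n => ζ w ^ n) else 0 := by
  have h : (monomial m a : MvPolynomial M k) = a • monomial m 1 := by
    rw [smul_monomial, smul_eq_mul, mul_one]
  have h2 := (basisMonomials M k).constr_basis k (fun m : M →₀ ℕ =>
    if (K : ℚ) * e = θ * (ws z m + e) + ws y m then m.prod (fun w n => ζ w ^ n) else 0) m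
  rw [coe_basisMonomials] at h2
  rw [h, map_smul, phi, h2, smul_eq_mul]
  split_ifs <;> simp

/-- `Q`. -/
noncomputable def QQ : MvPolynomial M k →ₗ[k] MonoidAlgebra k M :=
  NN (fun w => phi z y K θ ζ (z w))

open scoped Classical in
theorem coeff_QQ_monomial (m : M →₀ ℕ) (a : k) (w : M) :
    (QQ z y K θ ζ (monomial m a)).coeff w =
      if tau z y K w = Lam z y θ m then
        (a * m w) * (m - Finsupp.single w 1).prod (fun w n => ζ w ^ n) else 0 := by
  rw [QQ, coeff_NN, pderiv_monomial, phi_monomial]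
  by_cases hw : w ∈ m.support
  · have h1 := ws_sub z hw
    have h2 := ws_sub y hw
    have : ((K : ℚ) * z w = θ * (ws z (m - Finsupp.single w 1) + z w)
        + ws y (m - Finsupp.single w 1)) ↔ tau z y K w = Lam z y θ m := by
      unfold tau Lam
      rw [h1, h2]
      push_cast
      constructor <;> intro h <;> linarith
    by_cases h : tau z y K w = Lam z y θ m
    · rw [if_pos h, if_pos (this.2 h)]
    · rw [if_neg h, if_neg (fun h' => h (this.1 h'))]
  · rw [Finsupp.notMem_support_iff.1 hw]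
    simp

theorem QQ_mem [Monoid M] (G : LieSubalgebra k (MonoidAlgebra k M)) (hG : Graded z G)
    {f : MvPolynomial M k}
    (hf : f ∈ Algebra.adjoin k (iota '' (G : Set (MonoidAlgebra k M)))) :
    QQ z y K θ ζ f ∈ G := by
  classical
  have : QQ z y K θ ζ f = ∑ e ∈ Finset.range (f.vars.sup z + 1),
      comp z e (Nf (phi z y K θ ζ e) f) := by
    ext w
    rw [MonoidAlgebra.coeff_sum, Finset.sum_apply', QQ, coeff_NN]
    simp only [comp, proj_coeff, coeff_NN]
    by_cases hw : w ∈ f.vars
    · rw [Finset.sum_ite_eq, if_pos]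
      exact Finset.mem_range.2 (Nat.lt_succ_of_le (Finset.le_sup hw))
    · rw [pderiv_eq_zero_of_notMem_vars hw]
      simp
  rw [this]
  exact G.toSubmodule.sum_mem fun e _ => hG e _ (Nf_mem G hf _)

end Q

section KK
variable {k M : Type} [Field k] [Monoid M] (z y : M → ℕ) (K : ℕ) (θ : ℚ) (ζ : M → k)

/-- good monomials -/
def good (m : M →₀ ℕ) : Prop := ∀ w ∈ m.support, w ≠ 1 ∧ tau z y K w ≤ Lam z y θ m

/-- `KK` -/
def KK (k : Type) [Field k] : Submodule k (MvPolynomial M k) where
  carrier := {f | ∀ m, f.coeff m ≠ 0 → good z y K θ m}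
  add_mem' := by
    intro f g hf hg m hm
    by_contra hne
    have h1 : f.coeff m = 0 := by
      by_contra h; exact hne (hf m h)
    have h2 : g.coeff m = 0 := by
      by_contra h; exact hne (hg m h)
    exact hm (by simp [h1, h2])
  zero_mem' := by intro m hm; simp at hm
  smul_mem' := by
    intro c f hf m hm
    refine hf m fun h => hm ?_
    simp [h]

theorem mem_KK {f : MvPolynomial M k} :
    f ∈ KK z y K θ k ↔ ∀ m, f.coeff m ≠ 0 → good z y K θ m := Iff.rfl

theorem monomial_mem_KK {m : M →₀ ℕ} (hm : good z y K θ m) (a : k) :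
    monomial m a ∈ KK z y K θ k := by
  classical
  intro m' hm'
  rw [coeff_monomial] at hm'
  split_ifs at hm' with h
  · exact h ▸ hm
  · exact absurd rfl hm'

variable {z y K θ}

/-- the monomial obtained from `m`, `m'` -/
noncomputable def nm (m m' : M →₀ ℕ) (w w' : M) : M →₀ ℕ :=
  (m' - Finsupp.single w' 1) + ((m - Finsupp.single w 1) + Finsupp.single (w * w') 1)

theorem Lam_nm (hz : IsAdd z) (hy : IsAdd y) {m m' : M →₀ ℕ} {w w' : M}
    (hw : w ∈ m.support) (hw' : w' ∈ m'.support) :
    Lam z y θ (nm m m' w w') = Lam z y θ m + Lam z y θ m' := by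
  conv_rhs => rw [← sub_single_add hw, ← sub_single_add hw']
  unfold nm
  simp only [Lam_add]
  have : Lam z y θ (Finsupp.single (w * w') 1)
      = Lam z y θ (Finsupp.single w 1) + Lam z y θ (Finsupp.single w' 1) := by
    unfold Lam
    simp only [ws_single, hz.map_mul, hy.map_mul]
    push_cast; ring
  rw [this]; ring

theorem tau_mul (hz : IsAdd z) (hy : IsAdd y) (w w' : M) :
    tau z y K (w * w') = tau z y K w + tau z y K w' := by
  unfold tau; rw [hz.map_mul, hy.map_mul]; push_cast; ring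

theorem tau_pos (hzy : ∀ w, z w = 0 → y w = 0 → w = 1) (hK : 1 ≤ K) {w : M} (hw : w ≠ 1) :
    0 < tau z y K w := by
  unfold tau
  have : 0 < K * z w + y w := by
    by_contra h
    have h1 : K * z w = 0 := by omega
    have h2 : y w = 0 := by omega
    rcases Nat.mul_eq_zero.1 h1 with h3 | h3
    · omega
    · exact hw (hzy w h3 h2)
  exact_mod_cast this

theorem good_Lam_pos (hzy : ∀ w, z w = 0 → y w = 0 → w = 1) (hK : 1 ≤ K) {m : M →₀ ℕ}
    (hm : good z y K θ m) {w : M} (hw : w ∈ m.support) : 0 < Lam z y θ m :=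
  lt_of_lt_of_le (tau_pos hzy hK (hm w hw).1) (hm w hw).2

theorem mem_nm {m m' : M →₀ ℕ} {w w' u : M} (h : nm m m' w w' u ≠ 0) :
    u ∈ m.support ∨ u ∈ m'.support ∨ u = w * w' := by
  classical
  by_contra hne
  push Not at hne
  obtain ⟨h1, h2, h3⟩ := hne
  apply h
  simp only [nm, Finsupp.coe_add, Finsupp.coe_tsub, Pi.add_apply, Pi.sub_apply,
    Finsupp.notMem_support_iff.1 h1, Finsupp.notMem_support_iff.1 h2,
    Finsupp.single_eq_of_ne h3]
  simp

theorem mul_ne_one' (hz : IsAdd z) (hy : IsAdd y) (hzy : ∀ w, z w = 0 → y w = 0 → w = 1)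
    {w w' : M} (hw : w ≠ 1) : w * w' ≠ 1 := by
  intro h
  have h1 := hz.map_mul w w'
  have h2 := hy.map_mul w w'
  rw [h, hz.map_one] at h1
  rw [h, hy.map_one] at h2
  exact hw (hzy w (by omega) (by omega))

theorem good_nm (hz : IsAdd z) (hy : IsAdd y) (hzy : ∀ w, z w = 0 → y w = 0 → w = 1)
    (hK : 1 ≤ K) {m m' : M →₀ ℕ} (hm : good z y K θ m) (hm' : good z y K θ m') {w w' : M}
    (hw : w ∈ m.support) (hw' : w' ∈ m'.support) : good z y K θ (nm m m' w w') := by
  intro u hu
  have hL := Lam_nm (θ := θ) hz hy hw hw'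
  have p1 := good_Lam_pos hzy hK hm hw
  have p2 := good_Lam_pos hzy hK hm' hw'
  rcases mem_nm (Finsupp.mem_support_iff.1 hu) with h | h | h
  · refine ⟨(hm u h).1, ?_⟩
    have := (hm u h).2
    linarith
  · refine ⟨(hm' u h).1, ?_⟩
    have := (hm' u h).2
    linarith
  · subst h
    refine ⟨mul_ne_one' hz hy hzy (hm w hw).1, ?_⟩
    rw [tau_mul hz hy]
    have := (hm w hw).2
    have := (hm' w' hw').2
    linarith

theorem QQ_nm (hz : IsAdd z) (hy : IsAdd y) (hzy : ∀ w, z w = 0 → y w = 0 → w = 1)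
    (hK : 1 ≤ K) {m m' : M →₀ ℕ} (hm : good z y K θ m) (hm' : good z y K θ m') {w w' : M}
    (hw : w ∈ m.support) (hw' : w' ∈ m'.support) (a b : k) :
    QQ z y K θ ζ (monomial (nm m m' w w') ((b * m' w') * (a * m w))) =
      MonoidAlgebra.single w ((QQ z y K θ ζ (monomial m a)).coeff w) *
      MonoidAlgebra.single w' ((QQ z y K θ ζ (monomial m' b)).coeff w') := by
  classical
  have hL := Lam_nm (θ := θ) hz hy hw hw'
  have p1 := good_Lam_pos hzy hK hm hw
  have p2 := good_Lam_pos hzy hK hm' hw'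
  have q1 := (hm w hw).2
  have q2 := (hm' w' hw').2
  rw [MonoidAlgebra.single_mul_single]
  ext u
  rw [coeff_QQ_monomial, MonoidAlgebra.coeff_single, Finsupp.single_apply]
  by_cases hu : w * w' = u
  · subst hu
    rw [if_pos rfl, coeff_QQ_monomial, coeff_QQ_monomial, hL, tau_mul hz hy]
    by_cases h1 : tau z y K w = Lam z y θ m
    · by_cases h2 : tau z y K w' = Lam z y θ m'
      · rw [if_pos h1, if_pos h2, if_pos (by rw [h1, h2])]
        have n1 : w * w' ∉ m.support := by
          intro h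
          have := (hm _ h).2
          rw [tau_mul hz hy] at this
          linarith
        have n2 : w * w' ∉ m'.support := by
          intro h
          have := (hm' _ h).2
          rw [tau_mul hz hy] at this
          linarith
        have e1 : nm m m' w w' (w * w') = 1 := by
          simp only [nm, Finsupp.coe_add, Finsupp.coe_tsub, Pi.add_apply, Pi.sub_apply,
            Finsupp.notMem_support_iff.1 n1, Finsupp.notMem_support_iff.1 n2,
            Finsupp.single_eq_same]
          omega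
        have e2 : nm m m' w w' - Finsupp.single (w * w') 1
            = (m' - Finsupp.single w' 1) + (m - Finsupp.single w 1) := by
          unfold nm
          rw [← add_assoc, add_tsub_cancel_right]
        rw [e1, e2, Finsupp.prod_add_index' (by simp) (by intro u i j; rw [pow_add])]
        push_cast
        ring
      · rw [if_neg h2, mul_zero, if_neg]
        intro h
        apply h2
        linarith
    · rw [if_neg h1, zero_mul, if_neg]
      intro h
      apply h1
      linarith
  · rw [if_neg hu]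
    by_cases h0 : nm m m' w w' u = 0
    · rw [h0]
      simp
    · rw [if_neg]
      rw [hL]
      intro h
      rcases mem_nm h0 with h' | h' | h'
      · have := (hm u h').2
        linarith
      · have := (hm' u h').2
        linarith
      · exact hu h'.symm

omit [Monoid M] in
theorem QQ_monomial_eq_sum (m : M →₀ ℕ) (a : k) :
    QQ z y K θ ζ (monomial m a) = ∑ w ∈ m.support,
      MonoidAlgebra.single w ((QQ z y K θ ζ (monomial m a)).coeff w) := by
  classical
  ext u
  rw [MonoidAlgebra.coeff_sum, Finset.sum_apply']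
  simp only [MonoidAlgebra.coeff_single, Finsupp.single_apply]
  rw [Finset.sum_ite_eq']
  split_ifs with h
  · rfl
  · rw [coeff_QQ_monomial, Finsupp.notMem_support_iff.1 h]
    simp

theorem QQ_Pi_monomial (hz : IsAdd z) (hy : IsAdd y)
    (hzy : ∀ w, z w = 0 → y w = 0 → w = 1)
    (hK : 1 ≤ K) {m m' : M →₀ ℕ} (hm : good z y K θ m) (hm' : good z y K θ m') (a b : k) :
    QQ z y K θ ζ (Pi (monomial m a) (monomial m' b)) =
      QQ z y K θ ζ (monomial m a) * QQ z y K θ ζ (monomial m' b) := by
  rw [QQ_monomial_eq_sum (m := m), QQ_monomial_eq_sum (m := m'), Finset.sum_mul_sum,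
    Finset.sum_comm, Pi_monomial, map_sum]
  refine Finset.sum_congr rfl fun w' hw' => ?_
  rw [map_sum]
  refine Finset.sum_congr rfl fun w hw => ?_
  exact QQ_nm ζ hz hy hzy hK hm hm' hw hw' a b

theorem Pi_eq_sum (f g : MvPolynomial M k) :
    Pi f g = ∑ m ∈ f.support, ∑ m' ∈ g.support,
      Pi (monomial m (f.coeff m)) (monomial m' (g.coeff m')) := by
  conv_lhs => rw [f.as_sum, g.as_sum]
  rw [← PiL_apply, map_sum PiL, LinearMap.sum_apply]
  refine Finset.sum_congr rfl fun m _ => ?_
  rw [map_sum]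
  rfl

theorem Pi_mem_KK (hz : IsAdd z) (hy : IsAdd y)
    (hzy : ∀ w, z w = 0 → y w = 0 → w = 1) (hK : 1 ≤ K) {f g : MvPolynomial M k}
    (hf : f ∈ KK z y K θ k) (hg : g ∈ KK z y K θ k) : Pi f g ∈ KK z y K θ k := by
  rw [Pi_eq_sum]
  refine Submodule.sum_mem _ fun m hm => Submodule.sum_mem _ fun m' hm' => ?_
  rw [Pi_monomial]
  refine Submodule.sum_mem _ fun w' hw' => Submodule.sum_mem _ fun w hw => ?_
  exact monomial_mem_KK _ _ _ _ (good_nm hz hy hzy hK (hf m (mem_support_iff.1 hm))
    (hg m' (mem_support_iff.1 hm')) hw hw') _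

theorem QQ_Pi (hz : IsAdd z) (hy : IsAdd y)
    (hzy : ∀ w, z w = 0 → y w = 0 → w = 1) (hK : 1 ≤ K) {f g : MvPolynomial M k}
    (hf : f ∈ KK z y K θ k) (hg : g ∈ KK z y K θ k) :
    QQ z y K θ ζ (Pi f g) = QQ z y K θ ζ f * QQ z y K θ ζ g := by
  rw [Pi_eq_sum, map_sum]
  conv_rhs => rw [f.as_sum, g.as_sum, map_sum, map_sum, Finset.sum_mul_sum]
  refine Finset.sum_congr rfl fun m hm => ?_
  rw [map_sum]
  refine Finset.sum_congr rfl fun m' hm' => ?_
  exact QQ_Pi_monomial ζ hz hy hzy hK (hf m (mem_support_iff.1 hm))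
    (hg m' (mem_support_iff.1 hm')) _ _

end KK

section main
variable {k M : Type} [Field k]

theorem pderiv_one_adjoin [Monoid M] (G : LieSubalgebra k (MonoidAlgebra k M))
    (hG : ∀ g ∈ G, g.coeff 1 = 0) {f : MvPolynomial M k}
    (hf : f ∈ Algebra.adjoin k (iota '' (G : Set (MonoidAlgebra k M)))) :
    pderiv (1 : M) f = 0 := by
  induction hf using Algebra.adjoin_induction with
  | mem x hx =>
    obtain ⟨g, hg, rfl⟩ := hx
    rw [pderiv_iota, hG g hg, map_zero]
  | algebraMap r => rw [MvPolynomial.algebraMap_eq, pderiv_C]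
  | add x y _ _ hx hy => rw [map_add, hx, hy, add_zero]
  | mul x y _ _ hx hy => rw [pderiv_mul, hx, hy, zero_mul, mul_zero, add_zero]

theorem coeff_one_zero [CharZero k] [Monoid M] (G : LieSubalgebra k (MonoidAlgebra k M))
    (hG : ∀ g ∈ G, g.coeff 1 = 0) {f : MvPolynomial M k}
    (hf : f ∈ Algebra.adjoin k (iota '' (G : Set (MonoidAlgebra k M)))) (m : M →₀ ℕ)
    (hm : f.coeff m ≠ 0) : (1 : M) ∉ m.support := by
  intro h
  have h1 : m - Finsupp.single 1 1 + Finsupp.single 1 1 = m := sub_single_add h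
  have h2 := coeff_pderiv (i := (1 : M)) f (m - Finsupp.single 1 1)
  rw [pderiv_one_adjoin G hG hf, coeff_zero, h1] at h2
  rcases mul_eq_zero.1 h2.symm with h3 | h3
  · exact hm h3
  · exact Nat.cast_add_one_ne_zero _ h3

variable (z y : M → ℕ) (K : ℕ) (θ : ℚ) (ζ : M → k)

open scoped Classical in
/-- the part of `f` seen by `φ_e` -/
noncomputable def rest (e : ℕ) (f : MvPolynomial M k) : MvPolynomial M k :=
  ∑ m ∈ f.support, if (K : ℚ) * e = θ * (ws z m + e) + ws y m then monomial m (f.coeff m) else 0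

theorem phi_eq_eval (e : ℕ) (f : MvPolynomial M k) :
    phi z y K θ ζ e f = eval ζ (rest z y K θ e f) := by
  classical
  conv_lhs => rw [f.as_sum, map_sum]
  rw [rest, map_sum]
  refine Finset.sum_congr rfl fun m _ => ?_
  rw [phi_monomial]
  split_ifs
  · rw [eval_monomial]
  · rw [map_zero]

open scoped Classical in
theorem coeff_rest (e : ℕ) (f : MvPolynomial M k) (m : M →₀ ℕ) :
    (rest z y K θ e f).coeff m =
      if (K : ℚ) * e = θ * (ws z m + e) + ws y m then f.coeff m else 0 := by
  rw [rest, coeff_sum]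
  have : ∀ m' ∈ f.support, (if (K : ℚ) * e = θ * (ws z m' + e) + ws y m'
      then monomial m' (f.coeff m') else 0 : MvPolynomial M k).coeff m =
      if m' = m then (if (K : ℚ) * e = θ * (ws z m + e) + ws y m then f.coeff m else 0) else 0 := by
    intro m' _
    by_cases h : m' = m
    · subst h
      by_cases h2 : (K : ℚ) * e = θ * (ws z m' + e) + ws y m'
      · rw [if_pos h2, if_pos rfl, if_pos h2, coeff_monomial, if_pos rfl]
      · rw [if_neg h2, if_pos rfl, if_neg h2, coeff_zero]
    · rw [if_neg h]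
      split_ifs
      · rw [coeff_monomial, if_neg h]
      · rw [coeff_zero]
  rw [Finset.sum_congr rfl this, Finset.sum_ite_eq']
  split_ifs with h1 h2 h2
  · rfl
  · rfl
  · exact (notMem_support_iff.1 h1).symm
  · rfl

theorem QQ_iota (b : MonoidAlgebra k M) (hb : Hom z 0 b) : QQ z y K θ ζ (iota b) = b := by
  classical
  ext w
  rw [QQ, coeff_NN, pderiv_iota, C_apply, phi_monomial]
  by_cases h : b.coeff w = 0
  · rw [h]; simp
  · have : z w = 0 := hb w h
    rw [this, if_pos (by simp [ws])]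
    simp

theorem QQ_coeff_zero (hθ : 0 < θ) (f : MvPolynomial M k)
    (hf : ∀ m, f.coeff m ≠ 0 → 1 ≤ ws z m) (w : M) (hw : z w = 0) :
    (QQ z y K θ ζ f).coeff w = 0 := by
  classical
  rw [f.as_sum, map_sum, MonoidAlgebra.coeff_sum, Finset.sum_apply']
  refine Finset.sum_eq_zero fun m hm => ?_
  rw [coeff_QQ_monomial]
  by_cases h0 : w ∈ m.support
  · rw [if_neg]
    intro h
    have h1 := le_ws y h0
    have h2 := hf m (mem_support_iff.1 hm)
    unfold tau Lam at h
    rw [hw] at h
    have h3 : (y w : ℚ) ≤ ws y m := by exact_mod_cast h1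
    have h4 : (1 : ℚ) ≤ ws z m := by exact_mod_cast h2
    have h5 : θ * 1 ≤ θ * ws z m := by
      apply mul_le_mul_of_nonneg_left h4 hθ.le
    push_cast at h
    linarith
  · rw [Finsupp.notMem_support_iff.1 h0]
    simp

theorem exists_eval_ne_zero [CharZero k] {P : MvPolynomial M k} (hP : P ≠ 0) :
    ∃ ζ : M → k, eval ζ P ≠ 0 := by
  by_contra h
  push Not at h
  have : Infinite k := Infinite.of_injective (Nat.cast : ℕ → k) Nat.cast_injective
  exact hP (MvPolynomial.funext fun x => by rw [h x, map_zero])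

end main

/-- Module LA2. -/
theorem la2 : LA2Statement := by
  classical
  intro k M _ _ _ z y hz hy hzy G hGz hG1 C _ _ j T F hF hTF hj0 hjG χ hχL hχG hχ0 hχT hχF
  -- basic facts
  have hiota : ∀ (c : C) (m : M →₀ ℕ), (iota (j c)).coeff m ≠ 0 → ws z m = 0 := by
    intro c m hm
    obtain ⟨w, rfl, hw⟩ := coeff_iota _ _ hm
    rw [ws_single]
    exact hj0 c w hw
  have hχ0' : ∀ (c : C) (m : M →₀ ℕ), ws z m = 0 → (χ c).coeff m = (iota (j c)).coeff m :=
    fun c m hm => hχ0 c m hm
  have hdiff : ∀ (c : C) (m : M →₀ ℕ), (χ c - iota (j c)).coeff m ≠ 0 → 1 ≤ ws z m := by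
    intro c m hm
    by_contra h
    apply hm
    rw [coeff_sub, hχ0' c m (by omega), sub_self]
  -- a starting triple
  obtain ⟨c0, hc0, hne0⟩ := hχF
  obtain ⟨m0, hm0⟩ : ∃ m, (χ c0 - iota (j c0)).coeff m ≠ 0 := by
    by_contra h
    push Not at h
    exact hne0 (sub_eq_zero.1 (MvPolynomial.ext _ _ (by intro m; rw [h m, coeff_zero])))
  have hz0 : 1 ≤ ws z m0 := hdiff c0 m0 hm0
  have hm0' : (χ c0).coeff m0 ≠ 0 := by
    intro h
    apply hm0
    rw [coeff_sub, h]
    have : (iota (j c0)).coeff m0 = 0 := by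
      by_contra h'
      have := hiota c0 m0 h'
      omega
    rw [this, sub_zero]
  obtain ⟨w0, hw0, hzw0⟩ : ∃ w ∈ m0.support, 1 ≤ z w := by
    by_contra h
    push Not at h
    have : ws z m0 = 0 := by
      unfold ws
      refine Finset.sum_eq_zero fun w hw => ?_
      have := h w hw
      have : z w = 0 := by omega
      change m0 w * z w = 0
      rw [this, mul_zero]
    omega
  set K : ℕ := ws y m0 + 1 with hKdef
  have hK : 1 ≤ K := by omega
  -- the finite set of triples
  let D : C → Finset (M →₀ ℕ) := fun c => (χ c).support.filter (fun m => 1 ≤ ws z m)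
  let Tr : Finset (C × (M →₀ ℕ) × M) := hF.toFinset.biUnion fun c => (D c).biUnion fun m =>
    m.support.image fun w => (c, m, w)
  have hTr : ∀ c m w, (c, m, w) ∈ Tr ↔
      c ∈ F ∧ (χ c).coeff m ≠ 0 ∧ 1 ≤ ws z m ∧ w ∈ m.support := by
    intro c m w
    simp only [Tr, D, Finset.mem_biUnion, Finset.mem_image, Finset.mem_filter,
      MvPolynomial.mem_support_iff, Set.Finite.mem_toFinset, Prod.mk.injEq]
    constructor
    · rintro ⟨c', hc', m', ⟨h1, h2⟩, w', h3, rfl, rfl, rfl⟩
      exact ⟨hc', h1, h2, h3⟩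
    · rintro ⟨h1, h2, h3, h4⟩
      exact ⟨c, h1, m, ⟨h2, h3⟩, w, h4, rfl, rfl, rfl⟩
  let val : C × (M →₀ ℕ) × M → ℚ := fun p => (tau z y K p.2.2 - ws y p.2.1) / ws z p.2.1
  have h0Tr : (c0, m0, w0) ∈ Tr := (hTr _ _ _).2 ⟨hc0, hm0', hz0, hw0⟩
  obtain ⟨⟨c1, m1, w1⟩, h1Tr, hmax⟩ := Finset.exists_max_image Tr val ⟨_, h0Tr⟩
  set θ : ℚ := val (c1, m1, w1) with hθdef
  obtain ⟨hc1, hm1, hz1, hw1⟩ := (hTr _ _ _).1 h1Tr
  have hθ : 0 < θ := by
    refine lt_of_lt_of_le ?_ (hmax _ h0Tr)
    change 0 < (tau z y K w0 - ws y m0) / ws z m0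
    have h1 : (0 : ℚ) < ws z m0 := by exact_mod_cast hz0
    refine div_pos ?_ h1
    unfold tau
    have h2 : (K : ℚ) * 1 ≤ K * z w0 := by
      apply mul_le_mul_of_nonneg_left _ (by positivity)
      exact_mod_cast hzw0
    have h3 : (K : ℚ) = ws y m0 + 1 := by rw [hKdef]; push_cast; ring
    have h4 : (0 : ℚ) ≤ y w0 := by positivity
    linarith
  have htau1 : tau z y K w1 = Lam z y θ m1 := by
    have h1 : (0 : ℚ) < ws z m1 := by exact_mod_cast hz1
    have : θ * ws z m1 = tau z y K w1 - ws y m1 := by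
      rw [hθdef]
      change (tau z y K w1 - ws y m1) / ws z m1 * ws z m1 = _
      field_simp
    unfold Lam
    rw [this]; ring
  have hle : ∀ c ∈ F, ∀ m, (χ c).coeff m ≠ 0 → 1 ≤ ws z m → ∀ w ∈ m.support,
      tau z y K w ≤ Lam z y θ m := by
    intro c hc m hm hzm w hw
    have h1 : (0 : ℚ) < ws z m := by exact_mod_cast hzm
    have h2 := hmax (c, m, w) ((hTr _ _ _).2 ⟨hc, hm, hzm, hw⟩)
    have h3 : (tau z y K w - ws y m) / ws z m ≤ θ := h2
    rw [div_le_iff₀ h1] at h3
    unfold Lam
    linarith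
  -- good monomials
  have hgood0 : ∀ c m, (iota (j c)).coeff m ≠ 0 → good z y K θ m := by
    intro c m hm w hw
    obtain ⟨v, rfl, hv⟩ := coeff_iota _ _ hm
    have : w = v := by
      by_contra hne
      exact (Finsupp.mem_support_iff.1 hw) (Finsupp.single_eq_of_ne hne)
    subst this
    refine ⟨?_, ?_⟩
    · rintro rfl
      exact hv (hG1 _ (hjG c))
    · unfold tau Lam
      rw [ws_single, ws_single, hj0 c w hv]
      simp
  have hgoodF : ∀ c ∈ F, χ c ∈ KK z y K θ k := by
    intro c hc m hm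
    by_cases hzm : ws z m = 0
    · rw [hχ0' c m hzm] at hm
      exact hgood0 c m hm
    · intro w hw
      refine ⟨?_, hle c hc m hm (by omega) w hw⟩
      rintro rfl
      exact coeff_one_zero G hG1 (hχG c) m hm hw
  have hgoodT : ∀ t ∈ T, χ t ∈ KK z y K θ k := by
    intro t ht m hm
    rw [hχT t ht] at hm
    exact hgood0 t m hm
  let KC : LieSubalgebra k C :=
    { carrier := {c | χ c ∈ KK z y K θ k}
      add_mem' := by
        intro a b ha hb
        change χ (a + b) ∈ KK z y K θ k
        rw [map_add]; exact Submodule.add_mem _ ha hb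
      zero_mem' := by
        change χ 0 ∈ KK z y K θ k
        rw [map_zero]; exact Submodule.zero_mem _
      smul_mem' := by
        intro r a ha
        change χ (r • a) ∈ KK z y K θ k
        rw [map_smul]; exact Submodule.smul_mem _ _ ha
      lie_mem' := by
        intro a b ha hb
        change χ ⁅a, b⁆ ∈ KK z y K θ k
        rw [hχL]
        exact Submodule.sub_mem _ (Pi_mem_KK hz hy hzy hK ha hb) (Pi_mem_KK hz hy hzy hK hb ha) }
  have hKC : ∀ c, χ c ∈ KK z y K θ k := by
    have h1 : LieSubalgebra.lieSpan k C (T ∪ F) ≤ KC := by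
      rw [LieSubalgebra.lieSpan_le]
      rintro c (hc | hc)
      · exact hgoodT c hc
      · exact hgoodF c hc
    intro c
    have : c ∈ LieSubalgebra.lieSpan k C (T ∪ F) := by rw [hTF]; trivial
    exact h1 this
  -- z w1 ≥ 1
  have hzw1 : 1 ≤ z w1 := by
    by_contra h
    have h0 : z w1 = 0 := by omega
    have h1 := le_ws y hw1
    unfold tau Lam at htau1
    rw [h0] at htau1
    have h3 : (y w1 : ℚ) ≤ ws y m1 := by exact_mod_cast h1
    have h4 : (1 : ℚ) ≤ ws z m1 := by exact_mod_cast hz1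
    have h5 : θ * 1 ≤ θ * ws z m1 := mul_le_mul_of_nonneg_left h4 hθ.le
    push_cast at htau1
    linarith
  -- the point ζ
  have hP : rest z y K θ (z w1) (pderiv w1 (χ c1)) ≠ 0 := by
    intro h
    have h2 := coeff_rest z y K θ (z w1) (pderiv w1 (χ c1)) (m1 - Finsupp.single w1 1)
    have hcond : ((K : ℚ) * z w1 = θ * (ws z (m1 - Finsupp.single w1 1) + z w1)
        + ws y (m1 - Finsupp.single w1 1)) := by
      have e1 := ws_sub z hw1
      have e2 := ws_sub y hw1
      unfold tau Lam at htau1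
      rw [e1, e2] at htau1
      push_cast at htau1
      linarith
    rw [h, coeff_zero, if_pos hcond, coeff_pderiv, sub_single_add hw1] at h2
    rcases mul_eq_zero.1 h2.symm with h3 | h3
    · exact hm1 h3
    · exact Nat.cast_add_one_ne_zero _ h3
  obtain ⟨ζ, hζ⟩ := exists_eval_ne_zero hP
  have hQL : ∀ c d, QQ z y K θ ζ (χ ⁅c, d⁆) =
      ⁅QQ z y K θ ζ (χ c), QQ z y K θ ζ (χ d)⁆ := by
    intro c d
    rw [hχL, map_sub, QQ_Pi ζ hz hy hzy hK (hKC c) (hKC d), QQ_Pi ζ hz hy hzy hK (hKC d) (hKC c)]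
    rfl
  let ψ : C →ₗ⁅k⁆ MonoidAlgebra k M :=
    { (QQ z y K θ ζ).comp χ with
      map_lie' := by
        intro c d
        exact hQL c d }
  have hψ : ∀ c, ψ c = QQ z y K θ ζ (χ c) := fun c => rfl
  have hcomp : ∀ c, comp z 0 (ψ c) = j c := by
    intro c
    ext w
    rw [comp, proj_coeff, hψ]
    by_cases hw : z w = 0
    · rw [if_pos hw]
      have h1 := QQ_coeff_zero z y K θ ζ hθ (χ c - iota (j c)) (hdiff c) w hw
      rw [map_sub, QQ_iota z y K θ ζ (j c) (hj0 c), MonoidAlgebra.coeff_sub, Finsupp.sub_apply,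
        sub_eq_zero] at h1
      exact h1
    · rw [if_neg hw]
      by_contra h
      exact hw (hj0 c w (fun h' => h h'.symm))
  refine ⟨ψ, fun c => QQ_mem z y K θ ζ G hGz (hχG c), hcomp, ?_, ?_⟩
  · intro c hc
    rw [hψ, hc, QQ_iota z y K θ ζ (j c) (hj0 c)]
  · intro h
    apply hζ
    rw [← phi_eq_eval]
    have h1 : (ψ c1).coeff w1 = phi z y K θ ζ (z w1) (pderiv w1 (χ c1)) := by
      rw [hψ, QQ, coeff_NN]
    rw [← h1, h]
    by_contra h'
    have := hj0 c1 w1 h'
    omega

end Pool.Agent.A55.H75
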