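import Pool.Agent.Lib.MP_a55e6f_al.Interfaces

/-!
# MP_a55e6f_al (S02584): module ZO
-/

set_option autoImplicit false

attribute [local instance 100] LieRing.ofAssociativeRing

namespace Pool.Agent.A55.H75

/-! ## Free families and directed unions -/

section free
variable {k Q : Type} [Field k] [Ring Q] [Algebra k Q]

/-- lists with entries in `T` -/
def lst (T : Set Q) : Set (List Q) := {l | ∀ x ∈ l, x ∈ T}

theorem freeFam_iff {I : Type} (x : I → Q) :
    FreeFam k x ↔ LinearIndependent k (fun w : FreeMonoid I => FreeMonoid.lift x w) := by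
  have h : ∀ p : FA k I, ev x p = Finsupp.linearCombination k
      (fun w : FreeMonoid I => FreeMonoid.lift x w) p.coeff := by
    intro p
    rw [ev, MonoidAlgebra.lift_apply, Finsupp.linearCombination_apply]
  unfold FreeFam
  rw [LinearIndependent]
  constructor
  · intro hi f g hfg
    have := @hi (.ofCoeff f) (.ofCoeff g) (by rw [h, h]; exact hfg)
    exact congrArg MonoidAlgebra.coeff this
  · intro hi p q hpq
    rw [h, h] at hpq
    exact MonoidAlgebra.ext (hi hpq)

/-- the list of values of a word -/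
def wl (T : Set Q) (w : FreeMonoid T) : List Q := w.toList.map Subtype.val

omit [Ring Q] in
theorem wl_injective (T : Set Q) : Function.Injective (wl T) := by
  intro v w h
  exact FreeMonoid.toList.injective (List.map_injective_iff.2 Subtype.val_injective h)

omit [Ring Q] in
theorem range_wl (T : Set Q) : Set.range (wl T) = lst T := by
  ext l
  constructor
  · rintro ⟨w, rfl⟩ x hx
    obtain ⟨y, _, rfl⟩ := List.mem_map.1 hx
    exact y.2
  · intro hl
    refine ⟨FreeMonoid.ofList (l.attach.map fun x => ⟨x.1, hl x.1 x.2⟩), ?_⟩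
    unfold wl
    rw [FreeMonoid.toList_ofList, List.map_map]
    exact List.attach_map_subtype_val l

theorem freeFam_set_iff (T : Set Q) :
    FreeFam k (Subtype.val : T → Q) ↔ LinearIndepOn k List.prod (lst T) := by
  rw [freeFam_iff, ← range_wl, linearIndepOn_range_iff (wl_injective T)]
  have : (List.prod ∘ wl T) = fun w : FreeMonoid T => FreeMonoid.lift Subtype.val w := by
    funext w
    simp [wl, FreeMonoid.lift_apply]
  rw [this]

theorem freeFam_iUnion {ι : Type*} [Nonempty ι] (T : ι → Set Q) (hd : Directed (· ⊆ ·) T)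
    (hT : ∀ i, FreeFam k (Subtype.val : T i → Q)) :
    FreeFam k (Subtype.val : (⋃ i, T i : Set Q) → Q) := by
  rw [freeFam_set_iff]
  have h1 : lst (⋃ i, T i) = ⋃ i, lst (T i) := by
    ext l
    constructor
    · intro hl
      rw [Set.mem_iUnion]
      induction l with
      | nil => exact ⟨Classical.arbitrary ι, by intro x hx; simp at hx⟩
      | cons a l ih =>
        obtain ⟨i, hi⟩ := ih (fun x hx => hl x (List.mem_cons_of_mem _ hx))
        obtain ⟨j, hj⟩ := Set.mem_iUnion.1 (hl a (List.mem_cons_self))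
        obtain ⟨m, hm1, hm2⟩ := hd i j
        refine ⟨m, ?_⟩
        intro x hx
        rcases List.mem_cons.1 hx with h | h
        · exact h ▸ hm2 hj
        · exact hm1 (hi x h)
    · intro hl x hx
      obtain ⟨i, hi⟩ := Set.mem_iUnion.1 hl
      exact Set.mem_iUnion.2 ⟨i, hi x hx⟩
  rw [h1]
  refine linearIndepOn_iUnion_of_directed ?_ fun i => (freeFam_set_iff _).1 (hT i)
  intro i j
  obtain ⟨m, h1, h2⟩ := hd i j
  exact ⟨m, fun l hl x hx => h1 (hl x hx), fun l hl x hx => h2 (hl x hx)⟩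

theorem freeFam_empty [Nontrivial Q] : FreeFam k (Subtype.val : (∅ : Set Q) → Q) := by
  rw [freeFam_set_iff]
  have : lst (∅ : Set Q) = {[]} := by
    ext l
    constructor
    · intro hl
      cases l with
      | nil => rfl
      | cons a l => exact absurd (hl a (List.mem_cons_self)) (Set.notMem_empty a)
    · rintro rfl x hx
      simp at hx
  rw [this]
  exact (linearIndepOn_singleton_iff k).2 (by simp)

end free

/-! ## Finite generation -/

section fin
variable {k Q : Type} [Field k] [Ring Q] [Algebra k Q]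

theorem exists_finite_of_mem_adjoin {S : Set Q} {a : Q} (ha : a ∈ Algebra.adjoin k S) :
    ∃ S' : Set Q, S'.Finite ∧ S' ⊆ S ∧ a ∈ Algebra.adjoin k S' := by
  induction ha using Algebra.adjoin_induction with
  | mem x hx =>
    exact ⟨{x}, Set.finite_singleton x, by simpa using hx, Algebra.subset_adjoin rfl⟩
  | algebraMap r => exact ⟨∅, Set.finite_empty, Set.empty_subset _, Subalgebra.algebraMap_mem _ r⟩
  | add x y _ _ hx hy =>
    obtain ⟨S1, h1, h1', h1''⟩ := hx
    obtain ⟨S2, h2, h2', h2''⟩ := hy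
    exact ⟨S1 ∪ S2, h1.union h2, Set.union_subset h1' h2',
      Subalgebra.add_mem _ (Algebra.adjoin_mono Set.subset_union_left h1'')
        (Algebra.adjoin_mono Set.subset_union_right h2'')⟩
  | mul x y _ _ hx hy =>
    obtain ⟨S1, h1, h1', h1''⟩ := hx
    obtain ⟨S2, h2, h2', h2''⟩ := hy
    exact ⟨S1 ∪ S2, h1.union h2, Set.union_subset h1' h2',
      Subalgebra.mul_mem _ (Algebra.adjoin_mono Set.subset_union_left h1'')
        (Algebra.adjoin_mono Set.subset_union_right h2'')⟩

theorem adjoin_lieSpan_le (T : Set Q) :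
    ∀ a ∈ LieSubalgebra.lieSpan k Q T, a ∈ Algebra.adjoin k T := by
  let A : LieSubalgebra k Q :=
    { Subalgebra.toSubmodule (Algebra.adjoin k T) with
      lie_mem' := by
        intro x y hx hy
        change x * y - y * x ∈ Algebra.adjoin k T
        exact Subalgebra.sub_mem _ (Subalgebra.mul_mem _ hx hy) (Subalgebra.mul_mem _ hy hx) }
  have : LieSubalgebra.lieSpan k Q T ≤ A := by
    rw [LieSubalgebra.lieSpan_le]
    intro t ht
    exact Algebra.subset_adjoin (R := k) ht
  exact fun a ha => this ha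

end fin

section letters
variable {k Y : Type} [Field k]

theorem subA_mono {Y1 Y2 : Set Y} (h : Y1 ⊆ Y2) : subA k Y1 ≤ subA k Y2 :=
  Algebra.adjoin_mono (Set.image_mono h)

theorem subA_univ : subA k (Set.univ : Set Y) = ⊤ := by
  rw [eq_top_iff]
  rintro p -
  rw [← MonoidAlgebra.sum_coeff_single p, Finsupp.sum]
  refine Subalgebra.sum_mem _ fun w _ => ?_
  have : (MonoidAlgebra.single w (p.coeff w) : FA k Y)
      = p.coeff w • (MonoidAlgebra.of k (FreeMonoid Y) w) := by
    rw [MonoidAlgebra.of_apply, MonoidAlgebra.smul_single, smul_eq_mul, mul_one]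
  rw [this]
  refine Subalgebra.smul_mem _ ?_ _
  clear this
  clear * -
  induction w using FreeMonoid.inductionOn' with
  | one => rw [map_one]; exact Subalgebra.one_mem _
  | of_mul a w ih =>
    rw [map_mul]
    exact Subalgebra.mul_mem _ (Algebra.subset_adjoin ⟨a, trivial, rfl⟩) ih

theorem exists_letters (a : FA k Y) : ∃ N : Set Y, N.Finite ∧ a ∈ subA k N := by
  have ha : a ∈ Algebra.adjoin k (letter k '' (Set.univ : Set Y)) := by
    have : a ∈ subA k (Set.univ : Set Y) := by rw [subA_univ]; trivial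
    exact this
  obtain ⟨S', h1, h2, h3⟩ := exists_finite_of_mem_adjoin ha
  classical
  obtain ⟨N, -, hN⟩ := (Finset.subset_set_image_iff (t := h1.toFinset)
    (f := letter k) (s := Set.univ)).1 (by rw [Set.Finite.coe_toFinset]; exact h2)
  refine ⟨N, N.finite_toSet, ?_⟩
  have : letter k '' (N : Set Y) = S' := by
    have := congrArg (fun s : Finset (FA k Y) => (s : Set (FA k Y))) hN
    simpa using this
  rw [subA, this]
  exact h3

end letters

section zorn
variable {k Y : Type} [Field k]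

/-- a good base -/
structure Base (L : LieSubalgebra k (FA k Y)) (Y1 : Set Y) (T : Set (FA k Y)) : Prop where
  subL : T ⊆ L
  subA : T ⊆ subA k Y1
  free : FreeFam k (Subtype.val : T → FA k Y)
  gen : ∀ a ∈ L, a ∈ A55.subA k Y1 → a ∈ LieSubalgebra.lieSpan k (FA k Y) T

theorem lieSpan_le_adjoin_lie (D : LieSubalgebra k (FA k Y)) (T : Set (FA k Y))
    (hD : LieSubalgebra.lieSpan k (FA k Y) T = D) :
    Algebra.adjoin k T ≤ Algebra.adjoin k (D : Set (FA k Y)) := by
  refine Algebra.adjoin_mono ?_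
  rw [← hD]
  exact LieSubalgebra.subset_lieSpan

theorem mem_lieSpan_of_adjoin (p2 : P2Statement) (L : LieSubalgebra k (FA k Y)) (hL : EnvPair L)
    {T : Set (FA k Y)} (hT : T ⊆ L) {a : FA k Y} (ha : a ∈ L) (ha' : a ∈ Algebra.adjoin k T) :
    a ∈ LieSubalgebra.lieSpan k (FA k Y) T :=
  p2 k (FreeMonoid Y) L hL (LieSubalgebra.lieSpan k (FA k Y) T)
    (LieSubalgebra.lieSpan_le.2 hT) a ha (lieSpan_le_adjoin_lie _ T rfl ha')

variable [CharZero k]

theorem step (sa : SAStatement) (sb : SBStatement) (p2 : P2Statement)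
    (L : LieSubalgebra k (FA k Y)) (hL : EnvPair L) (hL1 : ∀ l ∈ L, l.coeff 1 = 0)
    {Y0 : Set Y} {T : Set (FA k Y)} (hTL : T ⊆ L) (hT : Algebra.adjoin k T = subA k Y0)
    {F F' : Set Y} (hF' : F'.Finite) (hFF' : F ⊆ F') {T1 : Set (FA k Y)} (hTT1 : T ⊆ T1)
    (hB : Base L (Y0 ∪ F) T1) : ∃ T2, T1 ⊆ T2 ∧ Base L (Y0 ∪ F') T2 := by
  classical
  -- a finite set S ⊆ L with the letters of F' in adjoin S
  have hS : ∀ y : Y, ∃ S : Set (FA k Y), S.Finite ∧ S ⊆ L ∧ letter k y ∈ Algebra.adjoin k S := by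
    intro y
    apply exists_finite_of_mem_adjoin
    rw [hL.gen]; trivial
  choose S hSf hSL hS using hS
  let SS : Set (FA k Y) := ⋃ y ∈ F', S y
  have hSSf : SS.Finite := hF'.biUnion fun y _ => hSf y
  have hSSL : SS ⊆ L := Set.iUnion₂_subset fun y _ => hSL y
  have hle : subA k (Y0 ∪ F') ≤ Algebra.adjoin k (T ∪ SS) := by
    refine Algebra.adjoin_le ?_
    rintro _ ⟨y, hy | hy, rfl⟩
    · have : letter k y ∈ subA k Y0 := Algebra.subset_adjoin ⟨y, hy, rfl⟩
      rw [← hT] at this
      exact Algebra.adjoin_mono Set.subset_union_left this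
    · refine Algebra.adjoin_mono ?_ (hS y)
      exact Set.subset_union_of_subset_right (Set.subset_biUnion_of_mem (u := S) hy) _
  have hT1L := hB.subL
  have hE : ∀ a ∈ L, a ∈ subA k (Y0 ∪ F') → a ∈ LieSubalgebra.lieSpan k (FA k Y) (T1 ∪ SS) := by
    intro a ha ha'
    have h1 := mem_lieSpan_of_adjoin p2 L hL (Set.union_subset hTL hSSL) ha (hle ha')
    exact LieSubalgebra.lieSpan_mono (Set.union_subset_union_left _ hTT1) h1
  obtain ⟨G, hGf, hGL, hG⟩ := sb k Y L hL hL1 (Y0 ∪ F) T1 hT1L hB.subA hB.free hB.gen (Y0 ∪ F')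
    (Set.union_subset_union_right _ hFF') SS hSSf hSSL
  obtain ⟨T2, h12, h2L, h2free, h2⟩ := sa k Y L hL hL1 (Y0 ∪ F) T1 hT1L hB.subA hB.free hB.gen
    G hGf hGL
  refine ⟨T2, h12, h2L, ?_, h2free, ?_⟩
  · intro t ht
    have : t ∈ LieSubalgebra.lieSpan k (FA k Y) T2 := LieSubalgebra.subset_lieSpan ht
    rw [h2] at this
    exact ((hG t).1 this).2
  · intro a ha ha'
    rw [h2]
    exact (hG a).2 ⟨hE a ha ha', ha'⟩

/-- Module ZO. -/
theorem zorn (sa : SAStatement) (sb : SBStatement) (p2 : P2Statement) : ZornStatement := by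
  classical
  intro k Y _ _ L hL hL1
  let s : Set (Set Y × Set (FA k Y)) := {p | p.2 ⊆ L ∧
    FreeFam k (Subtype.val : p.2 → FA k Y) ∧ Algebra.adjoin k p.2 = subA k p.1}
  obtain ⟨⟨Y0, T⟩, hmax⟩ : ∃ m, Maximal (· ∈ s) m := by
    apply zorn_le₀
    intro c hc hchain
    rcases c.eq_empty_or_nonempty with rfl | hne
    · refine ⟨(∅, ∅), ⟨Set.empty_subset _, freeFam_empty, ?_⟩, by simp⟩
      simp [subA]
    · have hd : DirectedOn (· ≤ ·) c := hchain.directedOn
      have : Nonempty c := hne.to_subtype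
      refine ⟨(⋃ p : c, p.1.1, ⋃ p : c, p.1.2), ⟨?_, ?_, ?_⟩, ?_⟩
      · exact Set.iUnion_subset fun p => (hc p.2).1
      · refine freeFam_iUnion _ ?_ fun p => (hc p.2).2.1
        intro p q
        obtain ⟨r, hr, h1, h2⟩ := hd p.1 p.2 q.1 q.2
        exact ⟨⟨r, hr⟩, h1.2, h2.2⟩
      · change Algebra.adjoin k (⋃ p : c, p.1.2) = subA k (⋃ p : c, p.1.1)
        rw [subA, Set.image_iUnion, Algebra.adjoin_iUnion, Algebra.adjoin_iUnion]
        exact iSup_congr fun p => (hc p.2).2.2
      · intro p hp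
        exact ⟨Set.subset_iUnion (fun q : c => q.1.1) ⟨p, hp⟩,
          Set.subset_iUnion (fun q : c => q.1.2) ⟨p, hp⟩⟩
  obtain ⟨hTL, hTfree, hTadj⟩ : T ⊆ L ∧ FreeFam k (Subtype.val : T → FA k Y) ∧
    Algebra.adjoin k T = subA k Y0 := hmax.1
  -- it is enough that Y0 is everything
  suffices hY0 : Y0 = Set.univ by
    refine ⟨T, hTL, hTfree, le_antisymm (LieSubalgebra.lieSpan_le.2 hTL) ?_⟩
    intro a ha
    apply mem_lieSpan_of_adjoin p2 L hL hTL ha
    rw [hTadj, hY0, subA_univ]; trivial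
  by_contra hY0
  obtain ⟨y, hy⟩ : ∃ y, y ∉ Y0 := by
    by_contra h
    push Not at h
    exact hY0 (Set.eq_univ_of_forall h)
  -- letters of finite generating sets
  have hS : ∀ y : Y, ∃ S : Set (FA k Y), S.Finite ∧ S ⊆ L ∧ letter k y ∈ Algebra.adjoin k S := by
    intro y
    apply exists_finite_of_mem_adjoin
    rw [hL.gen]; trivial
  choose S hSf hSL hS using hS
  have hN : ∀ y : Y, ∃ N : Set Y, N.Finite ∧ S y ⊆ subA k N := by
    intro y
    choose N hN1 hN2 using fun a : FA k Y => exists_letters a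
    refine ⟨⋃ a ∈ S y, N a, (hSf y).biUnion fun a _ => hN1 a, ?_⟩
    intro a ha
    exact subA_mono (Set.subset_biUnion_of_mem (u := N) ha) (hN2 a)
  choose N hNf hN using hN
  let F : ℕ → Set Y := fun n => Nat.rec {y} (fun _ F => F ∪ ⋃ u ∈ F, N u) n
  have hF0 : F 0 = {y} := rfl
  have hFs : ∀ n, F (n + 1) = F n ∪ ⋃ u ∈ F n, N u := fun n => rfl
  have hFf : ∀ n, (F n).Finite := by
    intro n
    induction n with
    | zero => rw [hF0]; exact Set.finite_singleton y
    | succ n ih => rw [hFs]; exact ih.union (ih.biUnion fun u _ => hNf u)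
  have hFm : ∀ n, F n ⊆ F (n + 1) := fun n => by rw [hFs]; exact Set.subset_union_left
  have hB : Base L (Y0 ∪ ∅) T := by
    refine ⟨hTL, ?_, hTfree, ?_⟩
    · intro t ht
      rw [Set.union_empty, ← hTadj]
      exact Algebra.subset_adjoin ht
    · intro a ha ha'
      rw [Set.union_empty, ← hTadj] at ha'
      exact mem_lieSpan_of_adjoin p2 L hL hTL ha ha'
  obtain ⟨T0, hTT0, hB0⟩ := step sa sb p2 L hL hL1 hTL hTadj (hFf 0) (Set.empty_subset _)
    (le_refl T) hB
  have hstep : ∀ n (T1 : {T1 : Set (FA k Y) // T ⊆ T1 ∧ Base L (Y0 ∪ F n) T1}),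
      ∃ T2 : {T2 : Set (FA k Y) // T ⊆ T2 ∧ Base L (Y0 ∪ F (n + 1)) T2}, T1.1 ⊆ T2.1 := by
    rintro n ⟨T1, h1, h2⟩
    obtain ⟨T2, h3, h4⟩ := step sa sb p2 L hL hL1 hTL hTadj (hFf (n + 1)) (hFm n) h1 h2
    exact ⟨⟨T2, h1.trans h3, h4⟩, h3⟩
  choose nx hnx using hstep
  let t : ∀ n, {T1 : Set (FA k Y) // T ⊆ T1 ∧ Base L (Y0 ∪ F n) T1} :=
    fun n => Nat.rec ⟨T0, hTT0, hB0⟩ (fun n T1 => nx n T1) n
  have ht : ∀ n, (t n).1 ⊆ (t (n + 1)).1 := fun n => hnx n (t n)
  have htm : Monotone fun n => (t n).1 := monotone_nat_of_le_succ ht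
  have hFmono : Monotone F := monotone_nat_of_le_succ hFm
  -- the bigger pair
  have hmem : ((Y0 ∪ ⋃ n, F n, ⋃ n, (t n).1) : Set Y × Set (FA k Y)) ∈ s := by
    refine ⟨Set.iUnion_subset fun n => (t n).2.2.subL, ?_, ?_⟩
    · exact freeFam_iUnion (fun n => (t n).1) htm.directed_le fun n => (t n).2.2.free
    · change Algebra.adjoin k (⋃ n, (t n).1) = subA k (Y0 ∪ ⋃ n, F n)
      apply le_antisymm
      · refine Algebra.adjoin_le ?_
        intro a ha
        obtain ⟨n, hn⟩ := Set.mem_iUnion.1 ha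
        exact subA_mono (Set.union_subset_union_right _ (Set.subset_iUnion F n))
          ((t n).2.2.subA hn)
      · refine Algebra.adjoin_le ?_
        rintro _ ⟨u, hu | hu, rfl⟩
        · have h1 : letter k u ∈ Algebra.adjoin k T := by
            rw [hTadj]; exact Algebra.subset_adjoin ⟨u, hu, rfl⟩
          exact Algebra.adjoin_mono ((t 0).2.1.trans (Set.subset_iUnion (fun n => (t n).1) 0)) h1
        · obtain ⟨n, hn⟩ := Set.mem_iUnion.1 hu
          have h1 : S u ⊆ Algebra.adjoin k (t (n + 1)).1 := by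
            intro a ha
            have h2 : a ∈ subA k (Y0 ∪ F (n + 1)) := by
              refine subA_mono ?_ (hN u ha)
              rw [hFs]
              exact (Set.subset_biUnion_of_mem (u := N) hn).trans
                (Set.subset_union_right.trans Set.subset_union_right)
            exact adjoin_lieSpan_le _ a ((t (n + 1)).2.2.gen a (hSL u ha) h2)
          have h2 : Algebra.adjoin k (S u) ≤ Algebra.adjoin k (⋃ n, (t n).1) :=
            (Algebra.adjoin_le h1).trans
              (Algebra.adjoin_mono (Set.subset_iUnion (fun n => (t n).1) (n + 1)))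
          exact h2 (hS u)
  have hle : ((Y0, T) : Set Y × Set (FA k Y)) ≤ (Y0 ∪ ⋃ n, F n, ⋃ n, (t n).1) :=
    ⟨Set.subset_union_left, (t 0).2.1.trans (Set.subset_iUnion (fun n => (t n).1) 0)⟩
  have h := (hmax.2 hmem hle).1
  exact hy (h (Or.inr (Set.mem_iUnion.2 ⟨0, rfl⟩)))

end zorn

end Pool.Agent.A55.H75
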